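import Mathlib

set_option autoImplicit false

namespace Pool.Agent.Results.MP_c4a975_al.EightElements

variable {R : Type} [NonUnitalNonAssocRing R]

/-- two-sided ideals of the ring `R` -/
def IsIdeal (I : AddSubgroup R) : Prop := ∀ x ∈ I, ∀ y, x * y ∈ I ∧ y * x ∈ I

/-- minimal ideals of `R` -/
def IsMinimalIdeal (I : AddSubgroup R) : Prop :=
  IsIdeal I ∧ I ≠ ⊥ ∧ ∀ J : AddSubgroup R, IsIdeal J → J ≤ I → J = ⊥ ∨ J = I

/-- the additive subgroup spanned by all products `a * b`, `a ∈ A`, `b ∈ B` -/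
def prod (A B : AddSubgroup R) : AddSubgroup R :=
  AddSubgroup.closure {z | ∃ a ∈ A, ∃ b ∈ B, z = a * b}

/-- `K` is a two-sided ideal of the ring `I` -/
def IsIdealOf (I K : AddSubgroup R) : Prop :=
  K ≤ I ∧ ∀ x ∈ K, ∀ y ∈ I, x * y ∈ K ∧ y * x ∈ K

/-- `I` is simple as a ring -/
def IsSimpleAsRing (I : AddSubgroup R) : Prop :=
  prod I I ≠ ⊥ ∧ ∀ K : AddSubgroup R, IsIdealOf I K → K = ⊥ ∨ K = I

/-- the derived series -/
def derivedSer (I : AddSubgroup R) : ℕ → AddSubgroup R
  | 0 => I
  | k + 1 => prod (derivedSer I k) (derivedSer I k)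

/-- the right powers: `rightPow I n` is the `(n+1)`-st right power of `I` -/
def rightPow (I : AddSubgroup R) : ℕ → AddSubgroup R
  | 0 => I
  | n + 1 => prod (rightPow I n) I

def IsSolvableIdeal (I : AddSubgroup R) : Prop := ∃ k, derivedSer I k = ⊥

def IsRightNilpotentIdeal (I : AddSubgroup R) : Prop := ∃ n, rightPow I n = ⊥

/-- the underlying set of the example -/
def A : Type := Fin 3 → ZMod 2

instance : AddCommGroup A := inferInstanceAs (AddCommGroup (Fin 3 → ZMod 2))

def mulA (x y : Fin 3 → ZMod 2) : Fin 3 → ZMod 2 :=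
  ![x 0 * y 1 + x 1 * y 0, x 0 * y 2 + x 1 * y 1, 0]

instance : Mul A := ⟨mulA⟩

theorem ld : ∀ x y z : Fin 3 → ZMod 2, mulA x (y + z) = mulA x y + mulA x z := by
  intro x y z
  ext i
  fin_cases i <;> simp [mulA] <;> ring

theorem rd : ∀ x y z : Fin 3 → ZMod 2, mulA (x + y) z = mulA x z + mulA y z := by
  intro x y z
  ext i
  fin_cases i <;> simp [mulA] <;> ring

theorem zm : ∀ x : Fin 3 → ZMod 2, mulA 0 x = 0 := by
  intro x
  ext i
  fin_cases i <;> simp [mulA]

theorem mz : ∀ x : Fin 3 → ZMod 2, mulA x 0 = 0 := by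
  intro x
  ext i
  fin_cases i <;> simp [mulA]

instance : NonUnitalNonAssocRing A :=
  { (inferInstance : AddCommGroup A) with
    mul := fun x y => mulA x y
    left_distrib := ld
    right_distrib := rd
    zero_mul := zm
    mul_zero := mz }

theorem mul_def (x y : A) : x * y =
    (![x 0 * y 1 + x 1 * y 0, x 0 * y 2 + x 1 * y 1, 0] : Fin 3 → ZMod 2) := rfl

theorem ra (x y : A) : (x * y) * y = x * (y * y) := by
  have h : ∀ x y : Fin 3 → ZMod 2, mulA (mulA x y) y = mulA x (mulA y y) := by decide +kernel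
  exact h x y

/-- the ideal -/
def I0 : AddSubgroup A where
  carrier := {x | x 2 = 0}
  zero_mem' := rfl
  add_mem' := by
    intro a b ha hb
    show a 2 + b 2 = 0
    rw [show a 2 = 0 from ha, show b 2 = 0 from hb, add_zero]
  neg_mem' := by
    intro a ha
    show -(a 2) = 0
    rw [show a 2 = 0 from ha, neg_zero]

def K0 : AddSubgroup A where
  carrier := {x | x 1 = 0 ∧ x 2 = 0}
  zero_mem' := ⟨rfl, rfl⟩
  add_mem' := by
    rintro a b ⟨ha1, ha2⟩ ⟨hb1, hb2⟩
    refine ⟨?_, ?_⟩
    · show a 1 + b 1 = 0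
      rw [ha1, hb1, add_zero]
    · show a 2 + b 2 = 0
      rw [ha2, hb2, add_zero]
  neg_mem' := by
    rintro a ⟨ha1, ha2⟩
    refine ⟨?_, ?_⟩
    · show -(a 1) = 0
      rw [ha1, neg_zero]
    · show -(a 2) = 0
      rw [ha2, neg_zero]

def e0 : A := (![1, 0, 0] : Fin 3 → ZMod 2)
def e1 : A := (![0, 1, 0] : Fin 3 → ZMod 2)
def e2 : A := (![0, 0, 1] : Fin 3 → ZMod 2)

instance : DecidableEq A := inferInstanceAs (DecidableEq (Fin 3 → ZMod 2))

theorem e0e1 : e0 * e1 = e0 := by decide +kernel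
theorem e1e0 : e1 * e0 = e0 := by decide +kernel
theorem e1e1 : e1 * e1 = e1 := by decide +kernel
theorem e0e2 : e0 * e2 = e1 := by decide +kernel

/-- the four elements of `I0` -/
theorem cases_I0 : ∀ x : Fin 3 → ZMod 2, x 2 = 0 → x = 0 ∨ x = ![1, 0, 0] ∨ x = ![0, 1, 0] ∨
    x = ![1, 0, 0] + ![0, 1, 0] := by decide +kernel

theorem idealI : IsIdeal I0 := by
  intro x _ y
  exact ⟨rfl, rfl⟩

theorem minimalI : IsMinimalIdeal I0 := by
  refine ⟨idealI, ?_, ?_⟩
  · intro h
    have : e0 ∈ (⊥ : AddSubgroup A) := by rw [← h]; exact rfl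
    rw [AddSubgroup.mem_bot] at this
    exact absurd (congrFun this 0) (by decide)
  · intro J hJ hJI
    by_cases hbot : J = ⊥
    · exact Or.inl hbot
    right
    apply le_antisymm hJI
    obtain ⟨x, hx, hne⟩ : ∃ x ∈ J, x ≠ 0 := by
      by_contra hc
      push Not at hc
      apply hbot
      rw [eq_bot_iff]
      intro x hx
      rw [hc x hx]
      exact AddSubgroup.zero_mem _
    have hboth : e0 ∈ J ∧ e1 ∈ J := by
      have h0 : e0 ∈ J → e0 ∈ J ∧ e1 ∈ J := fun h => ⟨h, by
        have := (hJ e0 h e2).1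
        rwa [e0e2] at this⟩
      have h1 : e1 ∈ J → e0 ∈ J ∧ e1 ∈ J := fun h => ⟨by
        have := (hJ e1 h e0).1
        rwa [e1e0] at this, h⟩
      rcases cases_I0 x (hJI hx) with h | h | h | h
      · exact absurd h hne
      · apply h0
        have h' : x = e0 := h
        rwa [h'] at hx
      · apply h1
        have h' : x = e1 := h
        rwa [h'] at hx
      · -- x = e0 + e1, x * e2 = e1
        apply h1
        have h' : x = e0 + e1 := h
        have h3 := (hJ x hx e2).1
        rw [h'] at h3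
        have h4 : (e0 + e1) * e2 = e1 := by decide +kernel
        rwa [h4] at h3
    intro y hy
    rcases cases_I0 y hy with h | h | h | h
    · have h' : y = 0 := h
      rw [h']; exact J.zero_mem
    · have h' : y = e0 := h
      rw [h']; exact hboth.1
    · have h' : y = e1 := h
      rw [h']; exact hboth.2
    · have h' : y = e0 + e1 := h
      rw [h']; exact J.add_mem hboth.1 hboth.2

theorem e1_ne : e1 ≠ 0 := fun h => absurd (congrFun h 1) (by decide)

theorem mem_prod {B C : AddSubgroup A} {x y : A} (hx : x ∈ B) (hy : y ∈ C) : x * y ∈ prod B C :=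
  AddSubgroup.subset_closure ⟨x, hx, y, hy, rfl⟩

/-- There is a right alternative ring with eight elements that has a minimal ideal which is neither
simple as a ring nor solvable (and hence not right nilpotent). -/
theorem result : ∃ (R : Type) (_ : NonUnitalNonAssocRing R), Nat.card R = 8 ∧
    (∀ x y : R, (x * y) * y = x * (y * y)) ∧
    ∃ I : AddSubgroup R, IsMinimalIdeal I ∧ ¬ IsSimpleAsRing I ∧ ¬ IsSolvableIdeal I ∧
      ¬ IsRightNilpotentIdeal I := by
  refine ⟨A, inferInstance, ?_, ra, I0, minimalI, ?_, ?_, ?_⟩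
  · show Nat.card (Fin 3 → ZMod 2) = 8
    simp
  · rintro ⟨_, h⟩
    have hK : IsIdealOf I0 K0 := by
      refine ⟨fun x hx => hx.2, ?_⟩
      rintro x ⟨hx1, hx2⟩ y hy
      have hy2 : y 2 = 0 := hy
      refine ⟨⟨?_, rfl⟩, ⟨?_, rfl⟩⟩
      · show x 0 * y 2 + x 1 * y 1 = 0
        rw [hy2, hx1, mul_zero, zero_mul, add_zero]
      · show y 0 * x 2 + y 1 * x 1 = 0
        rw [hx1, hx2, mul_zero, mul_zero, add_zero]
    rcases h K0 hK with h | h
    · have : e0 ∈ (⊥ : AddSubgroup A) := by rw [← h]; exact ⟨rfl, rfl⟩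
      rw [AddSubgroup.mem_bot] at this
      exact absurd (congrFun this 0) (by decide)
    · have : e1 ∈ K0 := by rw [h]; exact rfl
      exact absurd this.1 (by decide)
  · rintro ⟨k, hk⟩
    have : ∀ k, e1 ∈ derivedSer I0 k := by
      intro k
      induction k with
      | zero => exact rfl
      | succ k ih =>
        have := mem_prod ih ih
        rwa [e1e1] at this
    have h := this k
    rw [hk, AddSubgroup.mem_bot] at h
    exact e1_ne h
  · rintro ⟨k, hk⟩
    have : ∀ k, e1 ∈ rightPow I0 k := by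
      intro k
      induction k with
      | zero => exact rfl
      | succ k ih =>
        have := mem_prod ih (show e1 ∈ I0 from rfl)
        rwa [e1e1] at this
    have h := this k
    rw [hk, AddSubgroup.mem_bot] at h
    exact e1_ne h

end Pool.Agent.Results.MP_c4a975_al.EightElements
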